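import Pool.Agent.Run7.h473.MD.Iface

/-!
# Project MD, piece GAM: the quotient of Gamma factors
-/

open Complex Filter Topology MeasureTheory Set

namespace Run7.h682.MD

lemma nrmseq (s : ℂ) {n : ℕ} (hn : 0 < n) : ‖Complex.GammaSeq s n‖ =
    ((n : ℝ) ^ s.re * (n.factorial : ℝ)) / ∏ j ∈ Finset.range (n + 1), ‖s + j‖ := by
  unfold Complex.GammaSeq
  rw [norm_div, norm_mul, norm_prod, Complex.norm_natCast_cpow_of_pos hn, Complex.norm_natCast]

/-- comparison of `Γ(x + iy) / Γ(x)` with `Γ(1 + iy)` -/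
lemma gam_cmp {x : ℝ} (hx : 0 < x) (hx1 : x ≤ 1) (y : ℝ) :
    ‖Complex.Gamma ((x : ℂ) + y * I)‖ ≤ Real.Gamma x * ‖Complex.Gamma (1 + y * I)‖ := by
  have h1 := (Complex.GammaSeq_tendsto_Gamma ((x : ℂ) + y * I)).norm
  have h2 := (Complex.GammaSeq_tendsto_Gamma 1).norm
  have h3 := (Complex.GammaSeq_tendsto_Gamma (x : ℂ)).norm
  have h4 := (Complex.GammaSeq_tendsto_Gamma (1 + y * I)).norm
  have h5 := le_of_tendsto_of_tendsto (h1.mul h2) (h3.mul h4) (by
    filter_upwards [eventually_gt_atTop 0] with n hn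
    rw [nrmseq _ hn, nrmseq _ hn, nrmseq _ hn, nrmseq _ hn, div_mul_div_comm, div_mul_div_comm]
    have e1 : ((x : ℂ) + y * I).re = (x : ℂ).re := by simp
    have e2 : ((1 : ℂ) + y * I).re = (1 : ℂ).re := by simp
    rw [e1, e2, ← Finset.prod_mul_distrib, ← Finset.prod_mul_distrib]
    apply div_le_div_of_nonneg_left (by positivity)
    · apply Finset.prod_pos
      intro j _
      have hj : (0 : ℝ) ≤ j := Nat.cast_nonneg j
      apply mul_pos
      · apply norm_pos_iff.2
        intro h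
        have := congrArg Complex.re h
        simp at this
        linarith
      · apply norm_pos_iff.2
        intro h
        have := congrArg Complex.re h
        simp at this
        linarith
    · apply Finset.prod_le_prod (fun j _ => by positivity)
      intro j _
      have hj : (0 : ℝ) ≤ j := Nat.cast_nonneg j
      rw [← sq_le_sq₀ (by positivity) (by positivity), mul_pow, mul_pow, Complex.sq_norm,
        Complex.sq_norm, Complex.sq_norm, Complex.sq_norm]
      simp only [Complex.normSq_apply, Complex.add_re, Complex.ofReal_re, Complex.natCast_re,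
        Complex.add_im, Complex.ofReal_im, Complex.natCast_im, Complex.mul_re, Complex.mul_im,
        Complex.I_re, Complex.I_im, Complex.one_re, Complex.one_im]
      have h6 : (x + j) ^ 2 ≤ (1 + j) ^ 2 := by
        apply pow_le_pow_left₀ (by linarith)
        linarith
      have h7 := mul_le_mul_of_nonneg_left h6 (sq_nonneg y)
      nlinarith)
  rw [Complex.Gamma_one, norm_one, mul_one, Complex.Gamma_ofReal, Complex.norm_real,
    Real.norm_of_nonneg (Real.Gamma_pos_of_pos hx).le] at h5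
  exact h5

lemma gam_one (y : ℝ) : ‖Complex.Gamma (1 + y * I)‖ ^ 2 ≤
    (1 + 2 * (Real.pi * |y|)) * Real.exp (-(Real.pi * |y|)) := by
  have hπ := Real.pi_pos
  rcases eq_or_ne y 0 with h | h
  · subst h
    simp
  · have hyI : (y : ℂ) * I ≠ 0 := mul_ne_zero (by exact_mod_cast h) Complex.I_ne_zero
    have h1 := Complex.Gamma_mul_Gamma_one_sub ((y : ℂ) * I)
    have h2 : Complex.Gamma (1 + y * I) = (y * I) * Complex.Gamma (y * I) := by
      rw [add_comm, Complex.Gamma_add_one _ hyI]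
    have h3 : ‖Complex.Gamma (1 - y * I)‖ = ‖Complex.Gamma (1 + y * I)‖ := by
      have : (1 - (y : ℂ) * I) = (starRingEnd ℂ) (1 + y * I) := by
        apply Complex.ext <;> simp
      rw [this, Complex.Gamma_conj, RCLike.norm_conj]
    have h4 : Complex.sin (Real.pi * ((y : ℂ) * I)) = ((Real.sinh (Real.pi * y) : ℝ) : ℂ) * I := by
      rw [← mul_assoc, ← Complex.ofReal_mul, Complex.sin_mul_I, Complex.ofReal_sinh]
    have h5 : ‖Complex.Gamma (1 + y * I)‖ ^ 2 = |Real.pi * y| / |Real.sinh (Real.pi * y)| := by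
      have h6 : Complex.Gamma (1 + y * I) * Complex.Gamma (1 - y * I) =
          (y * I) * (Real.pi / (((Real.sinh (Real.pi * y) : ℝ) : ℂ) * I)) := by
        rw [h2, ← h4, ← h1]
        ring
      have h7 := congrArg norm h6
      rw [norm_mul, h3, norm_mul, norm_mul, norm_div, norm_mul, Complex.norm_I, mul_one, mul_one,
        Complex.norm_real, Complex.norm_real, Complex.norm_real] at h7
      rw [sq, h7, Real.norm_eq_abs, Real.norm_eq_abs, Real.norm_eq_abs, abs_mul]
      ring
    have h8 : ∀ u : ℝ, 0 < u → u / Real.sinh u ≤ (1 + 2 * u) * Real.exp (-u) := by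
      intro u hu
      have hs : 0 < Real.sinh u := Real.sinh_pos_iff.2 hu
      rw [div_le_iff₀ hs, Real.sinh_eq]
      have e1 : Real.exp (-u) * Real.exp u = 1 := by rw [← Real.exp_add]; simp
      have e2 : Real.exp (-(2 * u)) * (1 + 2 * u) ≤ 1 := by
        have := Real.add_one_le_exp (2 * u)
        have e3 : Real.exp (-(2 * u)) * Real.exp (2 * u) = 1 := by rw [← Real.exp_add]; simp
        nlinarith [Real.exp_pos (-(2 * u))]
      have e4 : Real.exp (-(2 * u)) = Real.exp (-u) * Real.exp (-u) := by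
        rw [← Real.exp_add]
        ring_nf
      rw [e4] at e2
      have e5 : (1 + 2 * u) * Real.exp (-u) * ((Real.exp u - Real.exp (-u)) / 2) =
          ((1 + 2 * u) * (Real.exp (-u) * Real.exp u) -
            Real.exp (-u) * Real.exp (-u) * (1 + 2 * u)) / 2 := by ring
      rw [e5, e1]
      linarith
    rw [h5]
    have h9 : |Real.sinh (Real.pi * y)| = Real.sinh (|Real.pi * y|) := Real.abs_sinh _
    rw [h9]
    have h10 : 0 < |Real.pi * y| := abs_pos.2 (mul_ne_zero hπ.ne' h)
    have h11 := h8 _ h10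
    rwa [abs_mul, abs_of_pos hπ] at h11 ⊢

/-- Stirling upper bound -/
lemma gam_up {α : ℝ} (hα : 0 < α) : ∃ C : ℝ, 0 < C ∧ ∀ a : ℂ, α ≤ a.re → a.re ≤ 1 →
    ‖Complex.Gamma a‖ ≤ C * (1 + |a.im|) * Real.exp (-(Real.pi / 2 * |a.im|)) := by
  obtain ⟨G, hG⟩ := (isCompact_Icc (a := α) (b := 1)).exists_bound_of_continuousOn
    (f := Real.Gamma) (fun x hx => (Real.differentiableAt_Gamma (fun m => by
      have h1 := hx.1
      have h2 : (0 : ℝ) ≤ m := Nat.cast_nonneg m
      intro h
      rw [h] at h1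
      linarith)).continuousAt.continuousWithinAt)
  have hG' : ∀ x ∈ Icc α 1, Real.Gamma x ≤ |G| + 1 := fun x hx => by
    have := hG x hx
    rw [Real.norm_eq_abs] at this
    linarith [le_abs_self (Real.Gamma x), le_abs_self G]
  refine ⟨(|G| + 1) * 4, by positivity, fun a h1 h2 => ?_⟩
  have ha : 0 < a.re := by linarith
  have hπ := Real.pi_pos
  have hπ4 := Real.pi_le_four
  have h3 := gam_cmp ha h2 a.im
  rw [Complex.re_add_im] at h3
  have h4 : ‖Complex.Gamma (1 + a.im * I)‖ ≤ 4 * (1 + |a.im|) * Real.exp (-(Real.pi / 2 * |a.im|)) := by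
    rw [← sq_le_sq₀ (by positivity) (by positivity)]
    refine (gam_one a.im).trans ?_
    have e : Real.exp (-(Real.pi / 2 * |a.im|)) ^ 2 = Real.exp (-(Real.pi * |a.im|)) := by
      rw [← Real.exp_nat_mul]
      congr 1
      push_cast
      ring
    rw [mul_pow, e]
    apply mul_le_mul_of_nonneg_right _ (Real.exp_pos _).le
    nlinarith [abs_nonneg a.im]
  have h5 := hG' a.re ⟨h1, h2⟩
  calc ‖Complex.Gamma a‖ ≤ Real.Gamma a.re * ‖Complex.Gamma (1 + a.im * I)‖ := h3
    _ ≤ (|G| + 1) * (4 * (1 + |a.im|) * Real.exp (-(Real.pi / 2 * |a.im|))) := by gcongr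
    _ = _ := by ring

lemma sin_up (z : ℂ) : ‖Complex.sin z‖ ≤ Real.exp |z.im| := by
  have h : Complex.sin z = (Complex.exp (-z * I) - Complex.exp (z * I)) * I / 2 := rfl
  rw [h, norm_div, norm_mul, Complex.norm_I, mul_one, Complex.norm_two]
  have h1 : ‖Complex.exp (-z * I)‖ ≤ Real.exp |z.im| := by
    rw [Complex.norm_exp]
    apply Real.exp_le_exp.2
    simp
    exact le_abs_self _
  have h2 : ‖Complex.exp (z * I)‖ ≤ Real.exp |z.im| := by
    rw [Complex.norm_exp]
    apply Real.exp_le_exp.2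
    simp
    exact neg_le_abs _
  have h3 := norm_sub_le (Complex.exp (-z * I)) (Complex.exp (z * I))
  linarith

lemma gq_diff : DifferentiableOn ℂ (fun s : ℂ => (Real.pi : ℂ) ^ (s - 1 / 2) *
    Complex.Gamma ((1 - s) / 2) / Complex.Gamma (s / 2)) {s | 0 < s.re ∧ s.re < 1} := by
  intro s hs
  have h1 : 0 < ((1 - s) / 2).re := by
    simp
    linarith [hs.2]
  have h2 : 0 < (s / 2).re := by
    simp
    exact hs.1
  have d1 : DifferentiableAt ℂ Complex.Gamma ((1 - s) / 2) := Complex.differentiableAt_Gamma _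
    (fun m hm => by
      rw [hm] at h1
      simp at h1
      linarith [(Nat.cast_nonneg m : (0 : ℝ) ≤ m)])
  have d2 : DifferentiableAt ℂ Complex.Gamma (s / 2) := Complex.differentiableAt_Gamma _
    (fun m hm => by
      rw [hm] at h2
      simp at h2
      linarith [(Nat.cast_nonneg m : (0 : ℝ) ≤ m)])
  have e1 : DifferentiableAt ℂ (fun s : ℂ => Complex.Gamma ((1 - s) / 2)) s :=
    DifferentiableAt.comp (g := Complex.Gamma) s d1 (by fun_prop)
  have e2 : DifferentiableAt ℂ (fun s : ℂ => Complex.Gamma (s / 2)) s :=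
    DifferentiableAt.comp (g := Complex.Gamma) s d2 (by fun_prop)
  have e3 : DifferentiableAt ℂ (fun s : ℂ => (Real.pi : ℂ) ^ (s - 1 / 2)) s :=
    DifferentiableAt.const_cpow (by fun_prop) (Or.inl (by exact_mod_cast Real.pi_pos.ne'))
  exact ((e3.mul e1).div e2 (Complex.Gamma_ne_zero_of_re_pos h2)).differentiableWithinAt

lemma gq_bound (a b : ℝ) (ha : 0 < a) (hb : b < 1) : ∃ (C : ℝ) (N : ℕ), ∀ s : ℂ, a ≤ s.re →
    s.re ≤ b → ‖(Real.pi : ℂ) ^ (s - 1 / 2) * Complex.Gamma ((1 - s) / 2) /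
      Complex.Gamma (s / 2)‖ ≤ C * (1 + |s.im|) ^ N := by
  obtain ⟨C₁, hC₁, h1⟩ := gam_up (α := (1 - b) / 2) (by linarith)
  obtain ⟨C₂, hC₂, h2⟩ := gam_up (α := 1 / 2) (by norm_num)
  refine ⟨Real.pi * C₁ * C₂, 2, fun s hs1 hs2 => ?_⟩
  have hπ := Real.pi_pos
  have hπ3 := Real.pi_gt_three
  have e1 := h1 ((1 - s) / 2) (by simp; linarith) (by simp; linarith)
  have e2 := h2 (1 - s / 2) (by simp; linarith) (by simp; linarith)
  have i1 : |((1 - s) / 2).im| = |s.im| / 2 := by
    have : ((1 - s) / 2).im = -(s.im / 2) := by simp; ring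
    rw [this, abs_neg, abs_div]
    simp
  have i2 : |(1 - s / 2).im| = |s.im| / 2 := by
    have : (1 - s / 2).im = -(s.im / 2) := by simp
    rw [this, abs_neg, abs_div]
    simp
  rw [i1] at e1
  rw [i2] at e2
  have hre : 0 < (s / 2).re := by simp; linarith
  have hre2 : 0 < (1 - s / 2).re := by simp; linarith
  have g1 := Complex.Gamma_ne_zero_of_re_pos hre
  have g2 := Complex.Gamma_ne_zero_of_re_pos hre2
  have hrefl := Complex.Gamma_mul_Gamma_one_sub (s / 2)
  have hsin : Complex.sin (Real.pi * (s / 2)) ≠ 0 := by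
    intro h
    rw [h, div_zero] at hrefl
    exact (mul_ne_zero g1 g2) hrefl
  have hinv : 1 / Complex.Gamma (s / 2) =
      Complex.Gamma (1 - s / 2) * Complex.sin (Real.pi * (s / 2)) / Real.pi := by
    have hπc : (Real.pi : ℂ) ≠ 0 := by exact_mod_cast hπ.ne'
    rw [eq_div_iff hsin] at hrefl
    rw [div_eq_div_iff g1 hπc, one_mul]
    linear_combination -hrefl
  have hsn : ‖Complex.sin (Real.pi * (s / 2))‖ ≤ Real.exp (Real.pi / 2 * |s.im|) := by
    refine (sin_up _).trans (Real.exp_le_exp.2 (le_of_eq ?_))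
    have : ((Real.pi : ℂ) * (s / 2)).im = Real.pi / 2 * s.im := by
      simp
      ring
    rw [this, abs_mul, abs_of_pos (by positivity)]
  have hpow : ‖(Real.pi : ℂ) ^ (s - 1 / 2)‖ ≤ Real.pi := by
    rw [Complex.norm_cpow_eq_rpow_re_of_pos hπ]
    calc Real.pi ^ (s - 1 / 2).re ≤ Real.pi ^ (1 : ℝ) := by
          apply Real.rpow_le_rpow_of_exponent_le (by linarith)
          simp
          linarith
      _ = Real.pi := Real.rpow_one _
  have hexp : Real.exp (-(Real.pi / 2 * (|s.im| / 2))) * Real.exp (-(Real.pi / 2 * (|s.im| / 2))) *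
      Real.exp (Real.pi / 2 * |s.im|) = 1 := by
    rw [← Real.exp_add, ← Real.exp_add]
    have : -(Real.pi / 2 * (|s.im| / 2)) + -(Real.pi / 2 * (|s.im| / 2)) +
        Real.pi / 2 * |s.im| = 0 := by ring
    rw [this, Real.exp_zero]
  rw [div_eq_mul_one_div, hinv, norm_mul, norm_mul, norm_div, norm_mul, Complex.norm_real,
    Real.norm_of_nonneg hπ.le]
  set y := |s.im| with hy
  have hy0 : 0 ≤ y := abs_nonneg _
  calc ‖(Real.pi : ℂ) ^ (s - 1 / 2)‖ * ‖Complex.Gamma ((1 - s) / 2)‖ *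
        (‖Complex.Gamma (1 - s / 2)‖ * ‖Complex.sin (Real.pi * (s / 2))‖ / Real.pi)
      ≤ Real.pi * (C₁ * (1 + y / 2) * Real.exp (-(Real.pi / 2 * (y / 2)))) *
        ((C₂ * (1 + y / 2) * Real.exp (-(Real.pi / 2 * (y / 2)))) *
          Real.exp (Real.pi / 2 * y) / Real.pi) := by gcongr
    _ = C₁ * C₂ * (1 + y / 2) ^ 2 * (Real.exp (-(Real.pi / 2 * (y / 2))) *
        Real.exp (-(Real.pi / 2 * (y / 2))) * Real.exp (Real.pi / 2 * y)) := by
        field_simp
    _ = C₁ * C₂ * (1 + y / 2) ^ 2 := by rw [hexp, mul_one]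
    _ ≤ Real.pi * C₁ * C₂ * (1 + y) ^ 2 := by
        have h3 : (1 + y / 2) ^ 2 ≤ (1 + y) ^ 2 := by
          apply pow_le_pow_left₀ (by positivity)
          linarith
        have h4 : C₁ * C₂ ≤ Real.pi * C₁ * C₂ := by
          have : 0 < C₁ * C₂ := by positivity
          nlinarith
        gcongr

/-- piece GAM -/
theorem t_GAM : Pool.Agent.Run7.h473.MD.S_GAM :=
  ⟨gq_diff, fun a b ha hb => gq_bound a b ha hb⟩

end Run7.h682.MD
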